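import Pool.Agent.H64.FB.Targets
import Pool.Agent.H59.Connect

/-!
# Rational Whitehead theorem, block F: modules STF, CVS and CVK
-/

open Topology Set
open Pool.Agent.H59 Pool.Agent.H64.LB Pool.Agent.H93.FB Pool.Agent.H64.FB
open scoped unitInterval ContinuousMap Topology.Homotopy

namespace Pool.Agent.H92.LB

/-- Module STF. -/
theorem stf : T_STF := by
  intro A B _ _ _ f a₀ X _ _ φ x₀ hend h0 x
  have hfg : ((cl f a₀).comp φ).fg = (Leg.cst (BT.one (f a₀)) X).fg := by
    ext x
    exact hend x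
  have h1 : (cl f a₀).comp φ = Leg.cst (BT.one (f a₀)) X := Leg.eq_of_eq_at hfg x₀ h0
  exact congrArg (fun s : Leg (f a₀) X => s.toFun x) h1

/-- Module CVS. -/
theorem cvs : T_CVS := by
  intro Y _ _ y₀ n c
  induction c using Finsupp.induction_linear with
  | zero => exact ⟨0, map_zero _⟩
  | add a b ha hb =>
    obtain ⟨a', rfl⟩ := ha
    obtain ⟨b', rfl⟩ := hb
    exact ⟨a' + b', map_add _ _ _⟩
  | single φ r =>
    have t0 : Dl (n + 1) := stdSimplex.vertex 0
    exact ⟨Finsupp.single (Leg.lift φ t0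
      (Path.Homotopic.Quotient.mk (PathConnectedSpace.somePath y₀ (φ t0)))) r, by
        rw [fgC_single, Leg.lift_fg]⟩

/-- two points of the universal cover over the same point differ by a loop class -/
theorem bt_trans {Y : Type} [TopologicalSpace Y] {y₀ : Y} (x x' : BT y₀) (h : x.1 = x'.1) :
    ∃ g : PQ y₀ y₀, BT.act g x = x' := by
  obtain ⟨x1, x2⟩ := x
  obtain ⟨y1, y2⟩ := x'
  change x1 = y1 at h
  subst h
  refine ⟨y2.trans x2.symm, ?_⟩
  simp only [BT.act]
  rw [Path.Homotopic.Quotient.trans_assoc]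
  simp

theorem leg_trans {Y : Type} [TopologicalSpace Y] {y₀ : Y} {n : ℕ} (s s' : CS y₀ (n + 1))
    (h : s.fg = s'.fg) : ∃ g : PQ y₀ y₀, Leg.act g s = s' := by
  have t0 : Dl (n + 1) := stdSimplex.vertex 0
  have h1 : (s.toFun t0).1 = (s'.toFun t0).1 := DFunLike.congr_fun h t0
  obtain ⟨g, hg⟩ := bt_trans _ _ h1
  exact ⟨g, Leg.eq_of_eq_at h t0 hg⟩

open Classical in
/-- the linear extension of a section -/
noncomputable def secC {Y : Type} [TopologicalSpace Y] (y₀ : Y) (n : ℕ) :
    Ch ℚ (n + 1) Y →ₗ[ℚ] CC y₀ (n + 1) :=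
  Finsupp.linearCombination ℚ (fun φ => if h : ∃ s : CS y₀ (n + 1), s.fg = φ then
    Finsupp.single h.choose (1 : ℚ) else 0)

/-- Module CVK. -/
theorem cvk : T_CVK := by
  intro Y _ y₀ n x hx
  have key : ∀ x : CC y₀ (n + 1), ∃ (r : ℕ) (g : Fin r → PQ y₀ y₀) (e : Fin r → CC y₀ (n + 1)),
      x - secC y₀ n (fgC y₀ (n + 1) x) = ∑ i, (actC (g i) (n + 1) (e i) - e i) := by
    intro x
    induction x using Finsupp.induction_linear with
    | zero => exact ⟨0, Fin.elim0, Fin.elim0, by simp⟩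
    | add a b ha hb =>
      obtain ⟨r1, g1, e1, h1⟩ := ha
      obtain ⟨r2, g2, e2, h2⟩ := hb
      refine ⟨r1 + r2, Fin.append g1 g2, Fin.append e1 e2, ?_⟩
      rw [Fin.sum_univ_add]
      simp only [Fin.append_left, Fin.append_right]
      rw [← h1, ← h2, map_add, map_add]
      abel
    | single s c =>
      have hex : ∃ s' : CS y₀ (n + 1), s'.fg = s.fg := ⟨s, rfl⟩
      obtain ⟨g, hg⟩ := leg_trans hex.choose s hex.choose_spec
      refine ⟨1, fun _ => g, fun _ => Finsupp.single hex.choose c, ?_⟩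
      rw [Fin.sum_univ_one, actC_single, hg, fgC_single]
      have h3 : secC y₀ n (Finsupp.single s.fg c) = Finsupp.single hex.choose c := by
        unfold secC
        rw [Finsupp.linearCombination_single, dif_pos hex, Finsupp.smul_single, smul_eq_mul, mul_one]
      rw [h3]
  obtain ⟨r, g, e, h⟩ := key x
  rw [hx, map_zero, sub_zero] at h
  exact ⟨r, g, e, h⟩

end Pool.Agent.H92.LB
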